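import Mathlib

open Set Filter Topology Real

namespace Pool.Agent.Results.MP_3e6e51_an.Cex

variable {A : Type}

open Classical in
/-- the metric `2^{-min {i : x i ≠ y i}}` -/
noncomputable def d (x y : ℕ → A) : ℝ := if h : ∃ i, x i ≠ y i then 2⁻¹ ^ Nat.find h else 0

/-- the left shift -/
def σ (x : ℕ → A) : ℕ → A := fun i => x (i + 1)

/-- Birkhoff sum -/
def S (f : (ℕ → A) → ℝ) (n : ℕ) (x : ℕ → A) : ℝ := ∑ k ∈ Finset.range n, f (σ^[k] x)

def Walters (f : (ℕ → A) → ℝ) : Prop := ∀ κ > 0, ∃ ε > 0, ∀ n, 1 ≤ n → ∀ x y,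
  (∀ k < n, d (σ^[k] x) (σ^[k] y) < ε) → |S f n x - S f n y| < κ

def Bowen (f : (ℕ → A) → ℝ) : Prop := ∃ M > 0, ∃ ε > 0, ∀ n, 1 ≤ n → ∀ x y,
  (∀ k < n, d (σ^[k] x) (σ^[k] y) < ε) → |S f n x - S f n y| ≤ M

/-- weak coboundaries, the sup-norm closure of the coboundaries -/
def Wcob (A : Type) [TopologicalSpace A] : Set C(ℕ → A, ℝ) :=
  closure {g | ∃ q : C(ℕ → A, ℝ), ∀ x, g x = q (σ x) - q x}

lemma it (k : ℕ) (x : ℕ → A) (i : ℕ) : σ^[k] x i = x (i + k) := by
  induction k generalizing i with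
  | zero => rfl
  | succ k ih => rw [Function.iterate_succ_apply', σ, ih, add_assoc, add_comm 1]

lemma d_le {x y : ℕ → A} {L : ℕ} (h : ∀ i < L, x i = y i) : d x y ≤ 2⁻¹ ^ L := by
  unfold d
  split_ifs with e
  · exact pow_le_pow_of_le_one (by norm_num) (by norm_num)
      ((@Nat.le_find_iff _ (_) _ _).2 fun i l => not_not.2 (h i l))
  · positivity

lemma d_lt {x y : ℕ → A} (h : d x y < 1) : x 0 = y 0 := by
  classical
  by_contra n
  rw [d, dif_pos ⟨0, n⟩, (Nat.find_eq_zero _).2 n] at h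
  norm_num at h

lemma S_add (f : (ℕ → A) → ℝ) (m n : ℕ) (x : ℕ → A) :
    S f (m + n) x = S f m x + S f n (σ^[m] x) := by
  simp only [S, Finset.sum_range_add, ← Function.iterate_add_apply, add_comm]

noncomputable def C (n : ℕ) : ℝ := sin (π / 2 * √n)

open Classical in
noncomputable def U (a : A) (c : ℕ → ℝ) (x : ℕ → A) : ℝ :=
  if h : ∃ i, x i ≠ a then c (Nat.find h) else 0

lemma U_eq {a : A} (c : ℕ → ℝ) {x : ℕ → A} {k : ℕ} (h : x k ≠ a) (h' : ∀ i < k, x i = a) :
    U a c x = c k := by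
  classical
  rw [U, dif_pos ⟨k, h⟩, (Nat.find_eq_iff _).2 ⟨h, fun i l => not_not.2 (h' i l)⟩]

lemma U_cases (a : A) (x : ℕ → A) : (∀ i, x i = a) ∨ ∃ k, x k ≠ a ∧ ∀ i < k, x i = a := by
  classical
  refine or_iff_not_imp_left.2 fun h => ?_
  have := not_forall.1 h
  exact ⟨_, Nat.find_spec this, fun i l => not_not.1 (Nat.find_min this l)⟩

lemma U_zero {a : A} (c : ℕ → ℝ) {x : ℕ → A} (h : ∀ i, x i = a) : U a c x = 0 :=
  dif_neg (by simp [h])

lemma tele {a : A} {n : ℕ} {x : ℕ → A} (h : ∀ i < n, x i = a) :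
    S (U a fun k => C k - C (k - 1)) n x = U a C x - U a C (σ^[n] x) := by
  refine Eq.trans (Finset.sum_congr rfl fun k hk => ?_) (Finset.sum_range_sub' (fun k => U a C (σ^[k] x)) n)
  have : σ^[k] x 0 = a := by rw [it]; exact h _ (by simpa using hk)
  rw [Function.iterate_succ_apply']
  generalize σ^[k] x = y at this
  rcases U_cases a y with e | ⟨j, e, e'⟩
  · rw [U_zero _ e, U_zero _ e, U_zero (x := σ y) _ fun i => e _, sub_self]
  · obtain ⟨j, rfl⟩ := Nat.exists_eq_succ_of_ne_zero (n := j) fun q => e (q ▸ this)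
    rw [U_eq _ e e', U_eq _ e e', U_eq (x := σ y) (k := j) _ e fun i l => e' _ (by omega)]; rfl

lemma small : Tendsto (fun k => C k - C (k - 1)) atTop (𝓝 0) := by
  have t := (tendsto_inv_atTop_zero.comp (tendsto_sqrt_atTop.comp
    (tendsto_natCast_atTop_atTop (R := ℝ)))).const_mul (π / 2)
  rw [mul_zero] at t
  refine squeeze_zero_norm' ((eventually_ge_atTop 1).mono fun k hk => ?_) t
  refine (abs_sin_sub_sin_le _ _).trans ?_
  have a : (1 : ℝ) ≤ k := by exact_mod_cast hk
  have b := sqrt_pos.2 (one_pos.trans_le a)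
  have c := sqrt_le_sqrt (show (k : ℝ) - 1 ≤ k by linarith)
  rw [← mul_sub, abs_mul, abs_of_pos (by positivity), Nat.cast_sub hk, Nat.cast_one,
    abs_of_nonneg (by linarith)]
  refine mul_le_mul_of_nonneg_left ?_ (by positivity)
  rw [Function.comp, Function.comp, inv_eq_one_div, le_div_iff₀ b]
  nlinarith [mul_self_sqrt (by linarith : (0 : ℝ) ≤ k), mul_self_sqrt (by linarith : (0 : ℝ) ≤ k - 1),
    sqrt_nonneg ((k : ℝ) - 1)]

theorem result (A : Type) [Fintype A] [Nontrivial A] [TopologicalSpace A] [DiscreteTopology A] :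
    ∃ φ : C(ℕ → A, ℝ), Bowen φ ∧ ∀ h : C(ℕ → A, ℝ), Walters h → φ - h ∉ Wcob A := by
  classical
  obtain ⟨a, b, ab⟩ := exists_pair_ne A
  have cy := fun (x : ℕ → A) n => (PiNat.isOpen_cylinder _ x n).mem_nhds (PiNat.self_mem_cylinder x n)
  have ct : Continuous (U a fun k => C k - C (k - 1)) := continuous_iff_continuousAt.2 fun x => by
    rcases U_cases a x with e | ⟨j, e, e'⟩
    · refine Metric.tendsto_nhds.2 fun ε p => ?_
      obtain ⟨K, hK⟩ := eventually_atTop.1 (Metric.tendsto_nhds.1 small ε p)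
      filter_upwards [cy x K] with y hy
      rw [U_zero _ e]
      rcases U_cases a y with f | ⟨j, f, f'⟩
      · simpa [U_zero _ f]
      · rw [U_eq _ f f']
        exact hK j (not_lt.1 fun l => f ((PiNat.mem_cylinder_iff.1 hy j l).trans (e j)))
    · refine continuousAt_const.congr (f := fun _ => C j - C (j - 1)) ?_
      filter_upwards [cy x (j + 1)] with y hy
      replace hy := PiNat.mem_cylinder_iff.1 hy
      rw [U_eq (k := j) _ (hy j (by omega) ▸ e) fun i l => (hy i (by omega)).trans (e' i l)]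
  have bd : ∀ x, |U a C x| ≤ 1 := fun x => by
    unfold U; split_ifs
    exacts [abs_sin_le_one _, by simp]
  have bow : ∀ n (x y : ℕ → A), (∀ i < n, x i = y i) → |S (U a fun k => C k - C (k - 1)) n x -
      S (U a fun k => C k - C (k - 1)) n y| ≤ 4 := fun n => by
    induction n with
    | zero => simp [S]
    | succ n ih =>
      intro x y h
      by_cases q : ∀ i < n + 1, x i = a
      · rw [tele q, tele fun i l => (h i l).symm.trans (q i l), abs_le]
        have := abs_le.1 (bd x); have := abs_le.1 (bd y)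
        have := abs_le.1 (bd (σ^[n + 1] x)); have := abs_le.1 (bd (σ^[n + 1] y))
        constructor <;> linarith
      · obtain ⟨j, e, e'⟩ := (U_cases a x).resolve_left fun e => q fun i _ => e i
        have l : j < n + 1 := by_contra fun l => q fun i m => e' i (by omega)
        have := ih (σ x) (σ y) fun i m => h _ (by omega)
        rw [add_comm, S_add, S_add]
        simp only [S, Finset.sum_range_one, Function.iterate_zero_apply] at this ⊢
        rwa [U_eq _ e e', U_eq (k := j) _ (h j l ▸ e) fun i m => (h i (by omega)).symm.trans (e' i m),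
          add_sub_add_left_eq_sub]
  refine ⟨⟨_, ct⟩, ⟨4, by norm_num, 1, one_pos, fun n _ x y h => bow n x y fun i l => by
    simpa [it] using d_lt (h i l)⟩, fun h hW hc => ?_⟩
  have per : ∀ p (x : ℕ → A), σ^[p] x = x → S (U a fun k => C k - C (k - 1)) p x = S h p x :=
    fun p x e => by
      have : S (⟨_, ct⟩ - h : C(ℕ → A, ℝ)) p x = 0 := closure_minimal (t := {g : C(ℕ → A, ℝ) | S g p x = 0})
        (by
          rintro g ⟨q, hq⟩
          simp only [mem_ofPred_eq, S, hq, ← Function.iterate_succ_apply' σ]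
          rw [Finset.sum_range_sub fun k => q (σ^[k] x), e]; simp)
        (isClosed_eq (by unfold S; fun_prop) continuous_const) hc
      simpa [S, sub_eq_zero] using this
  have h0 : h (fun _ => a) = 0 := by
    simpa [S, U_zero] using (per 1 (fun _ => a) rfl).symm
  obtain ⟨ε, e, hε⟩ := hW (1 / 4) (by norm_num)
  obtain ⟨L, hL⟩ := exists_pow_lt_of_lt_one e (by norm_num : (2⁻¹ : ℝ) < 1)
  let z : ℕ → ℕ → A := fun j i => if i = j then b else a
  have key : ∀ n, L + 1 ≤ n → |C (n + (L + 1)) - (h (z 0) + S h (L + 1) (z (L + 1)))| < 1 / 2 := fun n hn => by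
    let y : ℕ → A := fun i => if (n + (L + 1) + 1) ∣ i then b else a
    have y0 : ∀ i, 0 < i → i < n + (L + 1) + 1 → y i = a := fun i p l =>
      if_neg fun q => (Nat.le_of_dvd p q).not_gt l
    have y1 : ∀ i, y (i + (n + (L + 1) + 1)) = y i := fun i => by simp [y]
    have y2 : y 0 = b := by simp [y]
    have p := per _ y (funext fun i => (it _ _ _).trans (y1 i))
    have c0 : C 0 = 0 := by simp [C]
    have y3 : y (n + (L + 1) + 1) ≠ a := by rw [← zero_add (_ + 1), y1, y2]; exact ab.symm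
    have u1 : U a C (σ^[1] y) = C (n + (L + 1)) :=
      U_eq _ y3 fun i l => y0 (i + 1) (by omega) (by omega)
    have u2 : U a C (σ^[n + (L + 1)] (σ^[1] y)) = C 0 :=
      U_eq _ (by rwa [it, it, zero_add]) (by simp)
    have u3 : S (U a fun k => C k - C (k - 1)) 1 y = 0 := by
      rw [S, Finset.sum_range_one, U_eq (x := σ^[0] y) (k := 0) _ (y2 ▸ ab.symm : y 0 ≠ a) (by simp),
        sub_self]
    rw [add_comm _ 1, S_add, tele (x := σ^[1] y) (fun i l => y0 (i + 1) (by omega) (by omega)), u1, u2, u3, c0,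
      ← add_assoc 1, S_add] at p
    have i := hε (1 + n) (by omega) y (z 0) fun k hk => (d_le (L := L) fun i l => by
      rw [it, it]
      rcases Nat.eq_zero_or_pos (i + k) with q | q
      · simp [q, y2, z]
      · rw [y0 _ q (by omega)]; exact (if_neg q.ne').symm).trans_lt hL
    have j := hε (L + 1) (by omega) (σ^[1 + n] y) (z (L + 1)) fun k hk => (d_le (L := L) fun i l => by
      rw [it, it, it]
      rcases lt_trichotomy (i + k) (L + 1) with q | q | q
      · rw [y0 _ (by omega) (by omega)]; exact (if_neg q.ne).symm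
      · rw [show i + k + (1 + n) = 0 + (n + (L + 1) + 1) by omega, y1, y2]; exact (if_pos q).symm
      · rw [show i + k + (1 + n) = i + k - (L + 1) + (n + (L + 1) + 1) by omega, y1,
          y0 _ (by omega) (by omega)]
        exact (if_neg q.ne').symm).trans_lt hL
    have : S h (1 + n) (z 0) = h (z 0) := by
      rw [S_add, S, S, Finset.sum_range_one, Finset.sum_eq_zero, add_zero]; rfl
      exact fun k _ => h0 ▸ congrArg h (funext fun i => by simp [it, σ, z])
    rw [abs_lt] at i j ⊢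
    constructor <;> linarith
  have q : ∀ m : ℕ, 2 * L + 2 ≤ m → |sin (π / 2 * m) - (h (z 0) + S h (L + 1) (z (L + 1)))| < 1 / 2 :=
    fun m l => by
      have := key (m * m - (L + 1)) (Nat.le_sub_of_add_le (by nlinarith))
      rwa [Nat.sub_add_cancel (by nlinarith), C, Nat.cast_mul, sqrt_mul_self m.cast_nonneg] at this
  have i := q (4 * (L + 1)) (by omega)
  have j := q (4 * (L + 1) + 1) (by omega)
  rw [show π / 2 * (4 * (L + 1) : ℕ) = 0 + (L + 1 : ℕ) * (2 * π) by push_cast; ring,
    sin_add_nat_mul_two_pi, sin_zero, abs_lt] at i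
  rw [show π / 2 * (4 * (L + 1) + 1 : ℕ) = π / 2 + (L + 1 : ℕ) * (2 * π) by push_cast; ring,
    sin_add_nat_mul_two_pi, sin_pi_div_two, abs_lt] at j
  linarith

end Pool.Agent.Results.MP_3e6e51_an.Cex
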